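import Mathlib
import Pool.Agent.Helper187.Leg.Fin2

open MeasureTheory Set Real
open scoped ENNReal

namespace Pool.Agent.Results.MP_f3eb7e_an.LegendreHull

/-- The interval `S = [-1, 1]`. -/
abbrev S : Type := Set.Icc (-1 : ℝ) 1

/-- Lebesgue measure on `S`. -/
noncomputable def mu : Measure S := Measure.comap Subtype.val volume

/-- The Legendre polynomials (Bonnet recursion). -/
noncomputable def legendre : ℕ → ℝ → ℝ
  | 0, _ => 1
  | 1, x => x
  | (n + 2), x => ((2 * n + 3) * x * legendre (n + 1) x - (n + 1) * legendre n x) / (n + 2)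

/-- The Legendre polynomials normalised in `L²[-1, 1]`. -/
noncomputable def p (k : ℕ) (x : S) : ℝ := √((k : ℝ) + 1 / 2) * legendre k x

/-- The `n`-th partial sum of the Fourier-Legendre expansion of `f`. -/
noncomputable def partialSum (n : ℕ) (f : S → ℝ) (x : S) : ℝ :=
  ∑ k ∈ Finset.range (n + 1), (∫ t, f t * p k t ∂mu) * p k x

/-- The maximal partial sum `S^* f`. -/
noncomputable def maximal (f : S → ℝ) (x : S) : ℝ≥0∞ :=
  ⨆ n : ℕ, ENNReal.ofReal |partialSum n f x|

/-- The class `A` of all `f ∈ L¹` with `S^* f ∈ L¹`. -/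
def A : Set (S → ℝ) := {f | Integrable f mu ∧ ∫⁻ x, maximal f x ∂mu < ⊤}

/-- `Ω_ε`: invertible measure preserving maps moving a set of measure at most `ε`. -/
def Omega (ε : ℝ) : Set (S ≃ᵐ S) :=
  {ω | MeasurePreserving ω mu mu ∧ mu {x | ω x ≠ x} ≤ ENNReal.ofReal ε}

/-- `R_ε(B) = {g ∘ ω : g ∈ B, ω ∈ Ω_ε}`. -/
def R (ε : ℝ) (B : Set (S → ℝ)) : Set (S → ℝ) := {f | ∃ g ∈ B, ∃ ω ∈ Omega ε, f = g ∘ ω}

/-- `RH_0(B)`, the intersection of the `R_ε(B)`, `ε > 0`. -/
def RH0 (B : Set (S → ℝ)) : Set (S → ℝ) := ⋂ (ε : ℝ) (_ : 0 < ε), R ε B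

/-- The class `M^q`. -/
def M (q : ℝ) : Set (S → ℝ) :=
  {f | Integrable f mu ∧ ∫⁻ t in Ioi (0 : ℝ), ENNReal.ofReal
    (t ^ (q - 2) * |∫ x, (if t < |f x| then f x else 0) ∂mu|) < ⊤}

theorem legendre_eq : ∀ n x, legendre n x = Pool.Agent.Helper187.Leg.leg n x
  | 0, x => by simp [legendre, Pool.Agent.Helper187.Leg.leg]
  | 1, x => by simp [legendre, Pool.Agent.Helper187.Leg.leg]
  | (n + 2), x => by
      simp only [legendre, Pool.Agent.Helper187.Leg.leg]
      rw [legendre_eq (n + 1) x, legendre_eq n x]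

theorem all (q : ℝ) (hq : 1 < q) : M q ⊆ RH0 A := by
  intro f hf
  simp only [RH0, mem_iInter]
  intro ε hε
  obtain ⟨e, he, hd, hi, hN⟩ := Pool.Agent.Helper187.Leg.main_subtype q hq f hf.1 hf.2 hε
  have he' : MeasurePreserving e mu mu := he
  refine ⟨f ∘ e, ⟨hi, ?_⟩, e.symm, ⟨he'.symm e, ?_⟩, ?_⟩
  · unfold maximal partialSum p
    simp only [legendre_eq]
    exact hN
  · have h1 : {x | e.symm x ≠ x} = {x | e x ≠ x} := by
      ext x
      simp only [mem_ofPred_eq, ne_eq, not_iff_not]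
      constructor
      · intro h
        have := e.apply_symm_apply x
        rw [h] at this
        exact this
      · intro h
        have := e.symm_apply_apply x
        rw [h] at this
        exact this
    rw [h1]
    exact hd
  · funext x
    simp

/-- `M^{8/7} ⊂ RH_0(A)`; more generally `M^q ⊂ RH_0(A)` for every `q > 1`. -/
theorem result : M (8 / 7) ⊆ RH0 A ∧ ∀ q : ℝ, 1 < q → M q ⊆ RH0 A :=
  ⟨all _ (by norm_num), all⟩

end Pool.Agent.Results.MP_f3eb7e_an.LegendreHull
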